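import Pool.Agent.MP_93267c_al.Mg.Main

open Finset Pool.Agent.MP_93267c_al

/-- Explicit formula for the relative subgroup commutativity degree of `H_{(m₁,n₁,s)}` in
`ZM(m,n,r)`. -/
theorem Pool.Agent.Results.MP_93267c_al.Formula.result :
    ∀ (m n : ℕ) (r : ℤ), 1 ≤ m → 1 ≤ n → Nat.gcd m n = 1 → Int.gcd m (r - 1) = 1 →
      r ^ n ≡ 1 [ZMOD m] →
      ∀ m₁ n₁ s : ℕ, m₁ ∣ m → n₁ ∣ n → s < m₁ →
        (m₁ : ℤ) ∣ s * ∑ i ∈ range (n / n₁), r ^ (n₁ * i) →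
        sd (subH m n r m₁ n₁ s) =
          (∑ e ∈ n.divisors with n₁ ∣ e, ∑ e' ∈ n.divisors, ∏ p ∈ m.primeFactors,
            locPair p (m.factorization p) (m₁.factorization p) (r ^ e - 1) (r ^ e' - 1)) /
          ((∑ e ∈ n.divisors with n₁ ∣ e, ∏ p ∈ m.primeFactors,
              loc p (m.factorization p - m₁.factorization p) (r ^ e - 1)) *
            ∑ e ∈ n.divisors, ∏ p ∈ m.primeFactors, loc p (m.factorization p) (r ^ e - 1)) :=
  fun m n r hm hn cop _ hr m₁ n₁ s h₁ hn₁ _ hs => sd_formula m n r hm hn cop hr m₁ n₁ s h₁ hn₁ hs
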